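import Pool.Agent.Y656.Main3
import Pool.Agent.W880.CB.Pok

/-! The condensate of a dilute gas of hard balls with a fractional kinetic energy: the general
statement in a form with a range of particle numbers. -/

set_option autoImplicit false

open MeasureTheory
open scoped ENNReal

namespace Pool.Agent.V11187.HC

open Pool.Agent.W761.CB

theorem gen (n : ℕ) (m c τ R₀ : ℝ) (hm : 0 < m) (hmn : m < n) (hc : 0 < c) (hτ : 0 < τ)
    (v : ℝ → ℝ≥0∞) (hv : Measurable v) (hvR : ∀ r, R₀ < r → v r = 0)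
    (hv0 : ∫⁻ z : Fin n → ℝ, v (el z) ≠ 0) :
    ∃ ρ₀ c₀ : ℝ, 0 < ρ₀ ∧ 0 < c₀ ∧ ∀ ρ : ℝ, 0 < ρ → ρ ≤ ρ₀ → ∃ c₁ L₀ : ℝ, 0 < c₁ ∧
      ∀ (L : ℝ) [Fact (0 < L)] (μ : ℝ) (K : (Fin n → ℝ) → ℝ≥0∞), L₀ ≤ L → 0 ≤ μ → μ ≤ τ →
      Measurable K → (∀ z, ENNReal.ofReal (c * (1 + el z) ^ (-(n + m))) ≤ K z) →
      ∫⁻ z, K z * ENNReal.ofReal (min 1 (el z ^ 2)) ≤ ENNReal.ofReal τ →
      ∀ N : ℕ, ρ / 2 * L ^ n ≤ N → (N : ℝ) ≤ ρ * L ^ n →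
      ∀ Ψ : (Fin N → Tor n L) → ℂ, IsWf2 Ψ →
        (∀ Φ : (Fin N → Tor n L) → ℂ, IsWf Φ →
          enN (ENNReal.ofReal μ) K v Ψ ≤
            enN (ENNReal.ofReal μ) K v Φ + ENNReal.ofReal (c₁ * L ^ (n - m))) →
        c₀ * N ≤ condN Ψ := by
  have hn0 : 0 < (n : ℝ) := hm.trans hmn
  have hn : 1 ≤ n := by
    rcases Nat.eq_zero_or_pos n with h | h
    · rw [h, Nat.cast_zero] at hn0
      exact absurd hn0 (lt_irrefl _)
    · exact h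
  have hg : (1 : ℝ) < n / m := by rwa [lt_div_iff₀ hm, one_mul]
  obtain ⟨ρ₀, c₀, hρ₀, hc₀, h⟩ := Pool.Agent.Y656.hcore n m m 1
    (2 * (1 + √n) ^ (n + m) / c) (2 * τ) c R₀ v hn hm hmn hm hmn hg (by positivity)
    (by positivity) hc hv hvR hv0
  refine ⟨min ρ₀ 1, c₀, lt_min hρ₀ one_pos, hc₀, fun ρ hρ hρle => ?_⟩
  obtain ⟨c₁, L₀, hc₁, h'⟩ := h ρ hρ (hρle.trans (min_le_left _ _))
  have hρ1 : ρ ≤ 1 := hρle.trans (min_le_right _ _)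
  refine ⟨c₁, L₀, hc₁, fun L _ μ K hL hμ hμτ hK hlb hub => ?_⟩
  have hy : 0 < ρ ^ (1 / m) := Real.rpow_pos_of_pos hρ _
  have hy1 : ρ ^ (1 / m) ≤ 1 := Real.rpow_le_one hρ.le hρ1 (by positivity)
  refine h' L (ENNReal.ofReal μ) K hL hK
    (Pool.Agent.W880.CB.pok n L m c (ENNReal.ofReal μ) K hc hm hlb hK) ?_ ?_
  · rw [two_mul, ENNReal.ofReal_add hτ.le hτ.le]
    exact add_le_add (ENNReal.ofReal_le_ofReal hμτ) hub
  · intro z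
    refine le_trans (ENNReal.ofReal_le_ofReal ?_) (hlb z)
    have hz : 0 ≤ el z := Real.sqrt_nonneg _
    have h1 : (1 + ρ ^ (1 / m) * el z) ^ (-((n : ℝ) + m)) ≤
        (ρ ^ (1 / m) * (1 + el z)) ^ (-((n : ℝ) + m)) := by
      refine Real.rpow_le_rpow_of_nonpos (by positivity) ?_ (by linarith)
      rw [mul_add, mul_one]
      linarith
    have h2 : (ρ ^ (1 / m) * (1 + el z)) ^ (-((n : ℝ) + m)) =
        (ρ ^ (1 / m)) ^ (-((n : ℝ) + m)) * (1 + el z) ^ (-((n : ℝ) + m)) :=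
      Real.mul_rpow hy.le (by positivity)
    have h3 : ρ ^ (1 + (n : ℝ) / m) * (ρ ^ (1 / m)) ^ (-((n : ℝ) + m)) = 1 := by
      rw [← Real.rpow_mul hρ.le, ← Real.rpow_add hρ]
      have : 1 + (n : ℝ) / m + 1 / m * -((n : ℝ) + m) = 0 := by
        field_simp
        ring
      rw [this, Real.rpow_zero]
    calc c * ρ ^ (1 + (n : ℝ) / m) * (1 + ρ ^ (1 / m) * el z) ^ (-((n : ℝ) + m))
        ≤ c * ρ ^ (1 + (n : ℝ) / m) * ((ρ ^ (1 / m)) ^ (-((n : ℝ) + m)) *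
          (1 + el z) ^ (-((n : ℝ) + m))) := by
          rw [← h2]
          gcongr
      _ = c * (ρ ^ (1 + (n : ℝ) / m) * (ρ ^ (1 / m)) ^ (-((n : ℝ) + m))) *
          (1 + el z) ^ (-((n : ℝ) + m)) := by ring
      _ = c * (1 + el z) ^ (-((n : ℝ) + m)) := by rw [h3, mul_one]

end Pool.Agent.V11187.HC
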